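import Pool.Agent.helper83.GR.Spec

/-!
# Module gr:KYG (helper28): KEY for group algebras
-/

set_option autoImplicit false

namespace Pool.Agent.GR

open Pool.Agent.helper58.DC Pool.Agent.DI

section
variable {G : Type} [Group G]

/-- the permutation `z ↦ a⁻¹ z b` -/
def KYG_pi (a b : G) : Equiv.Perm G where
  toFun z := a⁻¹ * z * b
  invFun z := a * z * b⁻¹
  left_inv z := by group
  right_inv z := by group

theorem KYG_pow (a b : G) (k : ℕ) (z : G) : (KYG_pi a b ^ k) z = (a ^ k)⁻¹ * z * b ^ k := by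
  induction k generalizing z with
  | zero => simp
  | succ k ih =>
    rw [pow_succ, Equiv.Perm.mul_apply, ih]
    change (a ^ k)⁻¹ * (a⁻¹ * z * b) * b ^ k = (a ^ (k + 1))⁻¹ * z * b ^ (k + 1)
    rw [pow_succ' a, pow_succ' b]
    have h : a⁻¹ * (a ^ k)⁻¹ = (a ^ k)⁻¹ * a⁻¹ := by
      rw [← mul_inv_rev, ← mul_inv_rev, ← pow_succ', ← pow_succ]
    rw [show (a * a ^ k)⁻¹ = (a ^ k)⁻¹ * a⁻¹ by rw [mul_inv_rev]]
    simp only [mul_assoc]

theorem KYG_padic {p : ℕ} {n n₀ : ℕ} (hp : p.Prime) (hn : ¬ p ∣ n₀) {y y' : G}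
    (hy : y ^ p ^ n = 1) (hy' : y' ^ p ^ n = 1) (h : y ^ n₀ = y' ^ n₀) : y = y' := by
  have hc : Nat.Coprime n₀ (p ^ n) :=
    Nat.Coprime.symm (Nat.Coprime.pow_left n ((Nat.Prime.coprime_iff_not_dvd hp).mpr hn))
  have h1 : ∀ g : G, g ^ p ^ n = 1 → (g ^ n₀) ^ (n₀.gcdA (p ^ n)) = g := by
    intro g hg
    have h2 := Nat.gcd_eq_gcd_ab n₀ (p ^ n)
    rw [hc] at h2
    have h3 : g ^ ((n₀ : ℤ) * n₀.gcdA (p ^ n) + ((p ^ n : ℕ) : ℤ) * n₀.gcdB (p ^ n)) = g := by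
      rw [← h2]
      simp
    rw [zpow_add, zpow_mul, zpow_mul, zpow_natCast, zpow_natCast, hg, one_zpow, mul_one] at h3
    exact h3
  rw [← h1 y hy, h, h1 y' hy']

end

theorem KYG (hKEY : KEY_stmt) : KYG_stmt := by
  intro p M hS G _ _ H u hu0 hu1 hu2 y hy v hv y' hy' v' hv' hpy hpy' hrv hrv' hyv hyv' hinv hlast r
  classical
  have : Fintype G := Fintype.ofFinite G
  have : Fintype H := Fintype.ofFinite H
  set a : H := ⟨y * v, H.mul_mem hy hv⟩ with ha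
  set b : H := ⟨y' * v', H.mul_mem hy' hv'⟩ with hb
  obtain ⟨k, hk⟩ := hpy
  obtain ⟨k', hk'⟩ := hpy'
  set n : ℕ := max k k' with hn
  have hyn : y ^ p ^ n = 1 := by
    obtain ⟨c, hc⟩ := Nat.pow_dvd_pow p (le_max_left k k')
    rw [hn, hc, pow_mul, hk, one_pow]
  have hyn' : y' ^ p ^ n = 1 := by
    obtain ⟨c, hc⟩ := Nat.pow_dvd_pow p (le_max_right k k')
    rw [hn, hc, pow_mul, hk', one_pow]
  set n₀ : ℕ := orderOf v * orderOf v' with hn₀
  have hpn : ¬ p ∣ n₀ := by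
    intro h
    rcases (hS.pr.dvd_mul).mp h with h | h
    · exact hrv h
    · exact hrv' h
  have hvn : v ^ n₀ = 1 := by rw [hn₀, pow_mul, pow_orderOf_eq_one, one_pow]
  have hvn' : v' ^ n₀ = 1 := by rw [hn₀, mul_comm, pow_mul, pow_orderOf_eq_one, one_pow]
  have han : (y * v) ^ n₀ = y ^ n₀ := by rw [hyv.mul_pow, hvn, mul_one]
  have hbn : (y' * v') ^ n₀ = y' ^ n₀ := by rw [hyv'.mul_pow, hvn', mul_one]
  have haN : (y * v) ^ (p ^ n * n₀) = 1 := by
    rw [mul_comm, pow_mul, han, ← pow_mul, mul_comm, pow_mul, hyn, one_pow]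
  have hbN : (y' * v') ^ (p ^ n * n₀) = 1 := by
    rw [mul_comm, pow_mul, hbn, ← pow_mul, mul_comm, pow_mul, hyn', one_pow]
  have hfix : ∀ z : H, (KYG_pi a b ^ n₀) z = z → (z : G)⁻¹ * y * z = y' := by
    intro z hz
    rw [KYG_pow] at hz
    have h1 : ((a : G) ^ n₀)⁻¹ * z * (b : G) ^ n₀ = z := by
      have := congrArg (fun x : H => (x : G)) hz
      simpa using this
    have h2 : (a : G) ^ n₀ = y ^ n₀ := han
    have h3 : (b : G) ^ n₀ = y' ^ n₀ := hbn
    rw [h2, h3] at h1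
    -- `z y'^n₀ = y^n₀ z`
    have h4 : ((z : G)⁻¹ * y * z) ^ n₀ = y' ^ n₀ := by
      have h5 : ((z : G)⁻¹ * y * z) ^ n₀ = (z : G)⁻¹ * y ^ n₀ * z := by
        have := conj_pow (a := (z : G)⁻¹) (b := y) (i := n₀)
        rw [inv_inv] at this
        exact this
      rw [h5]
      have h6 : (z : G) * y' ^ n₀ = y ^ n₀ * z := by
        calc (z : G) * y' ^ n₀ = y ^ n₀ * ((y ^ n₀)⁻¹ * z * y' ^ n₀) := by group
          _ = y ^ n₀ * z := by rw [h1]
      rw [mul_assoc, ← h6, inv_mul_cancel_left]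
    refine KYG_padic hS.pr hpn ?_ hyn' h4
    have h5 : ((z : G)⁻¹ * y * z) ^ p ^ n = (z : G)⁻¹ * y ^ p ^ n * z := by
      have := conj_pow (a := (z : G)⁻¹) (b := y) (i := p ^ n)
      rw [inv_inv] at this
      exact this
    rw [h5, hyn]
    group
  have key := hKEY p M hS H (fun z w => u ((z : G)⁻¹ * w)) (KYG_pi a b) n n₀ hpn ?_ ?_ ?_ ?_ ?_ r
  · have h9 : ∑ᶠ z ∈ (H : Set G), u (z⁻¹ * (y * v)⁻¹ * z * (y' * v')) =
        ∑ z : H, u ((z : G)⁻¹ * (KYG_pi a b z : H)) := by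
      rw [← finsum_set_coe_eq_finsum_mem]
      refine Eq.trans (finsum_eq_sum_of_fintype (α := H)
        (fun z : H => u ((z : G)⁻¹ * (y * v)⁻¹ * z * (y' * v')))) ?_
      refine Finset.sum_congr rfl fun z _ => ?_
      change _ = u ((z : G)⁻¹ * ((y * v)⁻¹ * z * (y' * v')))
      simp only [mul_assoc]
    rw [h9]
    exact key
  · ext z
    rw [KYG_pow]
    simp only [Subgroup.coe_mul, Subgroup.coe_inv, Subgroup.coe_pow, Equiv.Perm.coe_one, id_eq]
    have h2 : (a : G) ^ (p ^ n * n₀) = 1 := haN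
    have h3 : (b : G) ^ (p ^ n * n₀) = 1 := hbN
    rw [h2, h3]
    simp
  · intro z w
    exact hu1 _
  · intro z w
    have h1 := congrFun hu2 ((z : G)⁻¹ * w)
    rw [cv, finsum_eq_sum_of_fintype] at h1
    rw [← h1]
    -- the sum over `G` is the sum over `H`
    have h2 : ∑ x : G, u x * u (x⁻¹ * ((z : G)⁻¹ * w)) =
        ∑ x : H, u x * u ((x : G)⁻¹ * ((z : G)⁻¹ * w)) := by
      symm
      apply Finset.sum_of_injOn (fun x : H => (x : G))
      · intro x _ x' _ h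
        exact Subtype.ext h
      · intro x _
        exact Finset.mem_univ _
      · intro x _ hx
        have : x ∉ H := fun h => hx ⟨⟨x, h⟩, by simp, rfl⟩
        rw [hu0 x this, zero_mul]
      · intro x _
        rfl
    rw [h2]
    refine Finset.sum_equiv (Equiv.mulLeft z⁻¹) (by simp) ?_
    intro t _
    simp only [Equiv.coe_mulLeft, Subgroup.coe_mul, Subgroup.coe_inv]
    congr 2
    group
  · intro z w
    change u (((y * v)⁻¹ * z * (y' * v'))⁻¹ * ((y * v)⁻¹ * w * (y' * v'))) = u ((z : G)⁻¹ * w)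
    rw [← hinv]
    congr 1
    group
  · intro z w hz hw
    exact hlast z z.2 w w.2 (hfix z hz) (hfix w hw)

end Pool.Agent.GR
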