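import Pool.Agent.helper88.GR.Spec

/-!
# Module gr:LFZ (MP_af9036_an): the Cauchy transform of a line field on the critical orbit
-/

set_option autoImplicit false

open Complex Metric Set Filter Topology MeasureTheory
open MPS (om)
open PPS (pre TT fd)
open XPS (Df er dens tau)

noncomputable section

namespace GR

theorem LFZ_om (n : ℕ) (hn : 2 ≤ n) : om n ^ n = 1 ∧ om n ^ (n - 1) ≠ 1 := by
  have hp : IsPrimitiveRoot (om n) n := Complex.isPrimitiveRoot_exp n (by omega)
  refine ⟨hp.pow_eq_one, ?_⟩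
  intro h
  have h1 := hp.dvd_of_pow_eq_one (n - 1) h
  have h2 := Nat.le_of_dvd (by omega) h1
  omega

theorem LFZ_zero (hREL : NLF.REL_stmt) (hCTB : NLF.CTB_stmt) (n : ℕ) (c : ℂ) (μ : ℂ → ℂ)
    (hn : 2 ≤ n) (hLF : NLF.LF n c μ) : NLF.CT μ 0 = 0 := by
  obtain ⟨-, -, hcont, -⟩ := hCTB μ hLF.meas hLF.bd hLF.supp
  obtain ⟨ho1, ho2⟩ := LFZ_om n hn
  have hn0 : (n : ℂ) ≠ 0 := by
    have : n ≠ 0 := by omega
    exact_mod_cast this
  have key : ∀ b : ℂ, b ≠ 0 → om n ^ (n - 1) * NLF.CT μ (om n * b) - NLF.CT μ b = 0 := by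
    intro b hb
    have h1 := hREL n c μ hn hLF b
    have h2 := hREL n c μ hn hLF (om n * b)
    rw [mul_pow, ho1, one_mul, ← h1] at h2
    unfold MPS.fd at h2
    rw [mul_pow] at h2
    have h3 : (n : ℂ) * b ^ (n - 1) ≠ 0 := mul_ne_zero hn0 (pow_ne_zero _ hb)
    have h4 : (n : ℂ) * b ^ (n - 1) *
        (om n ^ (n - 1) * NLF.CT μ (om n * b) - NLF.CT μ b) = 0 := by
      linear_combination h2
    exact (mul_eq_zero.1 h4).resolve_left h3
  have hF : Continuous (fun b : ℂ => om n ^ (n - 1) * NLF.CT μ (om n * b) - NLF.CT μ b) := by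
    fun_prop
  have h0 : (fun b : ℂ => om n ^ (n - 1) * NLF.CT μ (om n * b) - NLF.CT μ b) = fun _ => 0 := by
    have hd : Dense ({0}ᶜ : Set ℂ) := dense_compl_singleton 0
    exact Continuous.ext_on hd hF continuous_const (fun b hb => key b hb)
  have h1 := congrFun h0 0
  simp only [mul_zero] at h1
  have h2 : (om n ^ (n - 1) - 1) * NLF.CT μ 0 = 0 := by
    linear_combination h1
  exact (mul_eq_zero.1 h2).resolve_left (sub_ne_zero.2 ho2)

theorem LFZ (hREL : NLF.REL_stmt) (hCTB : NLF.CTB_stmt) : LFZ_stmt := by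
  intro n c μ hn hLF
  refine ⟨LFZ_zero hREL hCTB n c μ hn hLF, ?_⟩
  intro j hj
  induction j, hj using Nat.le_induction with
  | base =>
    intro _
    have e1 : Z n c 1 = c := by
      have : n ≠ 0 := by omega
      simp [Z, this]
    have e2 : A n c 1 = 1 := by simp [A]
    have e3 : S n c 1 = 1 := by simp [S, e2]
    rw [e1, e2, e3]
    ring
  | succ j hj ih =>
    intro hne
    have hne' : ∀ i, 1 ≤ i → i < j → Z n c i ≠ 0 := fun i h1 h2 => hne i h1 (by omega)
    have h1 := ih hne'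
    have e1 : Z n c (j + 1) = Z n c j ^ n + c := by
      simp only [Z, Function.iterate_succ_apply']
    have e2 : A n c (j + 1) = (n : ℂ) * Z n c j ^ (n - 1) * A n c j := by
      unfold A
      rw [Finset.prod_Ico_succ_top hj]
      ring
    have e3 : S n c (j + 1) = S n c j + 1 / A n c (j + 1) := by
      unfold S
      rw [Finset.sum_Icc_succ_top (by omega)]
    have hA : A n c (j + 1) ≠ 0 := by
      unfold A
      refine Finset.prod_ne_zero_iff.2 fun i hi => ?_
      rw [Finset.mem_Ico] at hi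
      have hn0 : (n : ℂ) ≠ 0 := by
        have : n ≠ 0 := by omega
        exact_mod_cast this
      exact mul_ne_zero hn0 (pow_ne_zero _ (hne i hi.1 (by omega)))
    have h2 := hREL n c μ hn hLF (Z n c j)
    unfold MPS.fd at h2
    rw [h1] at h2
    have h3 : A n c (j + 1) * S n c (j + 1) =
        (n : ℂ) * Z n c j ^ (n - 1) * (A n c j * S n c j) + 1 := by
      rw [e3, mul_add, mul_one_div_cancel hA, e2]
      ring
    rw [e1, h3]
    linear_combination -h2

end GR
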